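import Pool.Agent.GTO.StmtsC

/-! Squad GTO, row CUB: the cubic of a run. -/

namespace Pool.Agent.GTO.H18

open Finset Pool.Agent.GTO
open scoped Classical

section

variable {ι : Type} [Fintype ι] {a : ι → V}

theorem ln_comm' (i j : ι) : ln a i j = ln a j i := by
  unfold ln
  apply filter_congr
  intro k _
  unfold dt
  constructor <;> intro h <;> linarith

theorem tri_swap {x y z : ι} (h : Tri a x y z) : Tri a y x z := by
  obtain ⟨h1, h2, h3, h4⟩ := h
  refine ⟨h1.symm, h3.symm, h2.symm, ?_⟩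
  rw [ln_comm', h4]
  exact insert_comm _ _ _

theorem tri_rot (bas : BasStmt) (hp : PI a) {x y z : ι} (h : Tri a x y z) : Tri a y z x := by
  obtain ⟨h1, h2, h3, h4⟩ := h
  refine ⟨h2, h3, h1, ?_⟩
  have h5 := (bas.2.2.2.2.2 ι a hp).1 x y y z h1 h2 (by rw [h4]; simp) (by rw [h4]; simp)
  rw [h5, h4]
  ext k
  simp only [mem_insert, mem_singleton]
  tauto

theorem par_of_cr {u v : V} (h : cr u v = 0) (hu : u ≠ 0) : ∃ t : ℝ, v = t • u := by
  have h0 := congrFun h 0
  have h1 := congrFun h 1
  have h2 := congrFun h 2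
  simp only [cr, Matrix.cons_val_zero, Matrix.cons_val_one, Matrix.cons_val, Pi.zero_apply]
    at h0 h1 h2
  have h3 : u 0 ≠ 0 ∨ u 1 ≠ 0 ∨ u 2 ≠ 0 := by
    by_contra hcon
    push Not at hcon
    apply hu
    funext i
    fin_cases i
    · exact hcon.1
    · exact hcon.2.1
    · exact hcon.2.2
  rcases h3 with h | h | h
  · refine ⟨v 0 / u 0, ?_⟩
    funext i
    fin_cases i <;> simp <;> field_simp <;> linarith
  · refine ⟨v 1 / u 1, ?_⟩
    funext i
    fin_cases i <;> simp <;> field_simp <;> linarith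
  · refine ⟨v 2 / u 2, ?_⟩
    funext i
    fin_cases i <;> simp <;> field_simp <;> linarith

theorem ip_cr (u v w : V) : ip (cr u v) w = dt u v w := by
  simp only [ip, cr, dt, Matrix.cons_val_zero, Matrix.cons_val_one, Matrix.cons_val]
  ring

/-- two lines with exactly three points, equal as lines, have the same points -/
theorem ln_of_par {i j k l : ι} (h1 : cr (a i) (a j) ≠ 0) (h2 : cr (a k) (a l) ≠ 0)
    (h : cr (cr (a i) (a j)) (cr (a k) (a l)) = 0) : ln a i j = ln a k l := by
  obtain ⟨t, ht⟩ := par_of_cr h h1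
  have ht0 : t ≠ 0 := by
    rintro rfl
    rw [zero_smul] at ht
    exact h2 ht
  unfold ln
  apply filter_congr
  intro m _
  rw [← ip_cr, ← ip_cr, ht]
  have e : ip (t • cr (a i) (a j)) (a m) = t * ip (cr (a i) (a j)) (a m) := by
    simp only [ip, Pi.smul_apply, smul_eq_mul]
    ring
  rw [e, mul_eq_zero]
  tauto

theorem win (cha : ChaStmt) (hp : PI a) (p : Fin 3 → Fin 3 → ι)
    (hinj : ∀ i j k l, p i j = p k l → i = k ∧ j = l)
    (hX : ∀ i, Tri a (p i 0) (p i 1) (p i 2)) (hY : ∀ j, Tri a (p 0 j) (p 1 j) (p 2 j))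
    (c : Fin 10 → ℝ) (h : ∀ i j, (i, j) ≠ (2, 2) → cub c (a (p i j)) = 0) :
    cub c (a (p 2 2)) = 0 := by
  refine cha (fun i => cr (a (p i 0)) (a (p i 1))) (fun j => cr (a (p 0 j)) (a (p 1 j)))
    (fun i j => a (p i j)) c ?_ ?_ ?_ h
  · intro i j
    constructor
    · rw [ip_cr]
      have h1 : p i j ∈ ln a (p i 0) (p i 1) := by
        rw [(hX i).2.2.2]
        fin_cases j <;> simp
      exact (mem_filter.1 h1).2
    · rw [ip_cr]
      have h1 : p i j ∈ ln a (p 0 j) (p 1 j) := by
        rw [(hY j).2.2.2]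
        fin_cases i <;> simp
      exact (mem_filter.1 h1).2
  · intro i j hcon
    have h1 := ln_of_par (hp _ _ (hX i).1) (hp _ _ (hY j).1) hcon
    rw [(hX i).2.2.2, (hY j).2.2.2] at h1
    obtain ⟨j', hj'⟩ : ∃ j' : Fin 3, j' ≠ j := by
      by_cases hj : j = 0
      · exact ⟨1, by rw [hj]; decide⟩
      · exact ⟨0, fun h => hj h.symm⟩
    have h2 : p i j' ∈ ({p i 0, p i 1, p i 2} : Finset ι) := by
      fin_cases j' <;> simp
    rw [h1] at h2
    simp only [mem_insert, mem_singleton] at h2
    rcases h2 with h2 | h2 | h2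
    · exact hj' (hinj _ _ _ _ h2).2
    · exact hj' (hinj _ _ _ _ h2).2
    · exact hj' (hinj _ _ _ _ h2).2
  · intro i j k l hne
    apply hp
    intro he
    obtain ⟨rfl, rfl⟩ := hinj _ _ _ _ he
    exact hne rfl

/-- the window lemma with nine names -/
theorem win9 (cha : ChaStmt) (hp : PI a) {x00 x01 x02 x10 x11 x12 x20 x21 x22 : ι}
    (hnd : [x00, x01, x02, x10, x11, x12, x20, x21, x22].Nodup)
    (r0 : Tri a x00 x01 x02) (r1 : Tri a x10 x11 x12) (r2 : Tri a x20 x21 x22)
    (c0 : Tri a x00 x10 x20) (c1 : Tri a x01 x11 x21) (c2 : Tri a x02 x12 x22)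
    (c : Fin 10 → ℝ) (h00 : cub c (a x00) = 0) (h01 : cub c (a x01) = 0)
    (h02 : cub c (a x02) = 0) (h10 : cub c (a x10) = 0) (h11 : cub c (a x11) = 0)
    (h12 : cub c (a x12) = 0) (h20 : cub c (a x20) = 0) (h21 : cub c (a x21) = 0) :
    cub c (a x22) = 0 := by
  let p : Fin 3 → Fin 3 → ι := ![![x00, x01, x02], ![x10, x11, x12], ![x20, x21, x22]]
  have hpq : ∀ i j, p i j = [x00, x01, x02, x10, x11, x12, x20, x21, x22].get
      ⟨3 * i + j, by have := i.2; have := j.2; simp only [List.length_cons, List.length_nil]; omega⟩ := by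
    intro i j
    fin_cases i <;> fin_cases j <;> rfl
  refine win cha hp p ?_ ?_ ?_ c ?_
  · intro i j k l he
    rw [hpq, hpq] at he
    have h1 := List.nodup_iff_injective_get.1 hnd he
    have h2 := congrArg Fin.val h1
    simp only at h2
    have := i.2
    have := j.2
    have := k.2
    have := l.2
    constructor
    · apply Fin.ext; omega
    · apply Fin.ext; omega
  · intro i
    fin_cases i
    · exact r0
    · exact r1
    · exact r2
  · intro i
    fin_cases i
    · exact c0
    · exact c1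
    · exact c2
  · intro i j hij
    fin_cases i <;> fin_cases j
    · exact h00
    · exact h01
    · exact h02
    · exact h10
    · exact h11
    · exact h12
    · exact h20
    · exact h21
    · exact absurd rfl hij

/-- nine linear conditions on a cubic form -/
theorem exists_cub (q : Fin 9 → V) : ∃ c : Fin 10 → ℝ, c ≠ 0 ∧ ∀ k, cub c (q k) = 0 := by
  let L : (Fin 10 → ℝ) →ₗ[ℝ] (Fin 9 → ℝ) :=
    { toFun := fun c k => cub c (q k)
      map_add' := by
        intro c d
        funext k
        simp only [cub, Pi.add_apply]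
        ring
      map_smul' := by
        intro t c
        funext k
        simp only [cub, Pi.smul_apply, smul_eq_mul, RingHom.id_apply]
        ring }
  have h1 : LinearMap.ker L ≠ ⊥ := by
    apply LinearMap.ker_ne_bot_of_finrank_lt
    simp
  obtain ⟨c, hc, hc0⟩ := Submodule.exists_mem_ne_zero_of_ne_bot h1
  exact ⟨c, hc0, fun k => congrFun (LinearMap.mem_ker.1 hc) k⟩

end

theorem cub_ (bas : BasStmt) (cha : ChaStmt) : CubStmt := by
  intro ι _ a hp N O Gm G1 G2 A B hrun hN
  obtain ⟨hO, hG1, hGm, hG2, hAB, hnd, hAO, hAG⟩ := hrun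
  obtain ⟨c, hc0, hc⟩ := exists_cub ![a O, a Gm, a G1, a G2, a (A 0), a (A 1), a (A 2), a (B 1),
    a (B 2)]
  have cO : cub c (a O) = 0 := hc 0
  have cGm : cub c (a Gm) = 0 := hc 1
  have cG1 : cub c (a G1) = 0 := hc 2
  have cG2 : cub c (a G2) = 0 := hc 3
  have cA0 : cub c (a (A 0)) = 0 := hc 4
  have cA1 : cub c (a (A 1)) = 0 := hc 5
  have cA2 : cub c (a (A 2)) = 0 := hc 6
  have cB1 : cub c (a (B 1)) = 0 := hc 7
  have cB2 : cub c (a (B 2)) = 0 := hc 8
  simp only [List.nodup_cons, List.mem_cons, List.not_mem_nil, or_false, not_or, List.nodup_nil,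
    not_false_eq_true, and_true] at hnd
  obtain ⟨⟨n1, n2, n3⟩, ⟨n4, n5⟩, n6⟩ := hnd
  -- permutations of the triples
  have P1 : ∀ {x y z : ι}, Tri a x y z → Tri a y x z := tri_swap
  have P2 : ∀ {x y z : ι}, Tri a x y z → Tri a y z x := tri_rot bas hp
  have hAA : ∀ i j, i ≤ N + 1 → j ≤ N + 1 → i ≠ j → A i ≠ A j := fun i j hi hj hne =>
    ((hAB i hi j hj).2 hne).1
  have hBB : ∀ i j, i ≤ N + 1 → j ≤ N + 1 → i ≠ j → B i ≠ B j := fun i j hi hj hne =>
    ((hAB i hi j hj).2 hne).2
  have hABn : ∀ i j, i ≤ N + 1 → j ≤ N + 1 → A i ≠ B j := fun i j hi hj => (hAB i hi j hj).1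
  -- window W' i, missing point `B i`
  have w1 : ∀ i, i + 1 ≤ N → cub c (a (A i)) = 0 → cub c (a (A (i + 1))) = 0 →
      cub c (a (A (i + 2))) = 0 → cub c (a (B (i + 1))) = 0 → cub c (a (B (i + 2))) = 0 →
      cub c (a (B i)) = 0 := by
    intro i hi a0 a1 a2 b1 b2
    have k0 := hAO i (by omega)
    have k1 := hAO (i + 1) (by omega)
    have k2 := hAO (i + 2) (by omega)
    have m0 := hAA i (i + 1) (by omega) (by omega) (by omega)
    have m1 := hAA i (i + 2) (by omega) (by omega) (by omega)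
    have m2 := hAA (i + 1) (i + 2) (by omega) (by omega) (by omega)
    have m3 := hBB i (i + 1) (by omega) (by omega) (by omega)
    have m4 := hBB i (i + 2) (by omega) (by omega) (by omega)
    have m5 := hBB (i + 1) (i + 2) (by omega) (by omega) (by omega)
    have q00 := hABn i i (by omega) (by omega)
    have q01 := hABn i (i + 1) (by omega) (by omega)
    have q02 := hABn i (i + 2) (by omega) (by omega)
    have q10 := hABn (i + 1) i (by omega) (by omega)
    have q11 := hABn (i + 1) (i + 1) (by omega) (by omega)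
    have q12 := hABn (i + 1) (i + 2) (by omega) (by omega)
    have q20 := hABn (i + 2) i (by omega) (by omega)
    have q21 := hABn (i + 2) (i + 1) (by omega) (by omega)
    have q22 := hABn (i + 2) (i + 2) (by omega) (by omega)
    -- rows X1, X2, X0, columns Y0, Y2, Y1
    refine win9 cha hp (x00 := A (i + 2)) (x01 := B (i + 2)) (x02 := O)
      (x10 := B (i + 1)) (x11 := G1) (x12 := A i) (x20 := Gm) (x21 := A (i + 1)) (x22 := B i)
      ?_ (P2 (hO (i + 2) (by omega))) ?_ (hGm i (by omega)) ?_ ?_ ?_ c a2 b2 cO b1 cG1 a0 cGm a1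
    · simp only [List.nodup_cons, List.mem_cons, List.not_mem_nil, or_false, not_or,
        List.nodup_nil, not_false_eq_true, and_true]
      grind
    · exact P2 (P2 (hG1 i (by omega)))
    · exact P2 (hGm (i + 1) (by omega))
    · exact P1 (P2 (P2 (hG1 (i + 1) (by omega)))) |> P1
    · exact hO i (by omega)
  -- window W i, missing point `B (i + 3)`
  have w2 : ∀ i, i + 2 ≤ N → cub c (a (A i)) = 0 → cub c (a (A (i + 1))) = 0 →
      cub c (a (A (i + 2))) = 0 → cub c (a (B (i + 1))) = 0 → cub c (a (B (i + 2))) = 0 →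
      cub c (a (B (i + 3))) = 0 := by
    intro i hi a0 a1 a2 b1 b2
    have k0 := hAO i (by omega)
    have k1 := hAO (i + 1) (by omega)
    have k2 := hAO (i + 2) (by omega)
    have k3 := hAO (i + 3) (by omega)
    have g0 := hAG i (by omega)
    have g1 := hAG (i + 1) (by omega)
    have g2 := hAG (i + 2) (by omega)
    have m0 := hAA i (i + 1) (by omega) (by omega) (by omega)
    have m1 := hAA i (i + 2) (by omega) (by omega) (by omega)
    have m2 := hAA (i + 1) (i + 2) (by omega) (by omega) (by omega)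
    have m3 := hBB (i + 1) (i + 2) (by omega) (by omega) (by omega)
    have m4 := hBB (i + 1) (i + 3) (by omega) (by omega) (by omega)
    have m5 := hBB (i + 2) (i + 3) (by omega) (by omega) (by omega)
    have q01 := hABn i (i + 1) (by omega) (by omega)
    have q02 := hABn i (i + 2) (by omega) (by omega)
    have q03 := hABn i (i + 3) (by omega) (by omega)
    have q11 := hABn (i + 1) (i + 1) (by omega) (by omega)
    have q12 := hABn (i + 1) (i + 2) (by omega) (by omega)
    have q13 := hABn (i + 1) (i + 3) (by omega) (by omega)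
    have q21 := hABn (i + 2) (i + 1) (by omega) (by omega)
    have q22 := hABn (i + 2) (i + 2) (by omega) (by omega)
    have q23 := hABn (i + 2) (i + 3) (by omega) (by omega)
    refine win9 cha hp (x00 := O) (x01 := B (i + 1)) (x02 := A (i + 1))
      (x10 := B (i + 2)) (x11 := A i) (x12 := G2) (x20 := A (i + 2)) (x21 := G1)
      (x22 := B (i + 3)) ?_ (P2 (P1 (hO (i + 1) (by omega)))) (P1 (P2 (hG2 i (by omega))))
      (P1 (hG1 (i + 2) (by omega))) (P2 (P1 (hO (i + 2) (by omega))))
      (P1 (P2 (hG1 i (by omega)))) (P1 (hG2 (i + 1) (by omega))) c cO b1 a1 b2 a0 cG2 a2 cG1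
    simp only [List.nodup_cons, List.mem_cons, List.not_mem_nil, or_false, not_or,
      List.nodup_nil, not_false_eq_true, and_true]
    grind
  -- window W' j, missing point `A (j + 2)`
  have w3 : ∀ j, j + 1 ≤ N → cub c (a (A j)) = 0 → cub c (a (A (j + 1))) = 0 →
      cub c (a (B j)) = 0 → cub c (a (B (j + 1))) = 0 → cub c (a (B (j + 2))) = 0 →
      cub c (a (A (j + 2))) = 0 := by
    intro i hi a0 a1 b0 b1 b2
    have k0 := hAO i (by omega)
    have k1 := hAO (i + 1) (by omega)
    have k2 := hAO (i + 2) (by omega)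
    have m0 := hAA i (i + 1) (by omega) (by omega) (by omega)
    have m1 := hAA i (i + 2) (by omega) (by omega) (by omega)
    have m2 := hAA (i + 1) (i + 2) (by omega) (by omega) (by omega)
    have m3 := hBB i (i + 1) (by omega) (by omega) (by omega)
    have m4 := hBB i (i + 2) (by omega) (by omega) (by omega)
    have m5 := hBB (i + 1) (i + 2) (by omega) (by omega) (by omega)
    have q00 := hABn i i (by omega) (by omega)
    have q01 := hABn i (i + 1) (by omega) (by omega)
    have q02 := hABn i (i + 2) (by omega) (by omega)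
    have q10 := hABn (i + 1) i (by omega) (by omega)
    have q11 := hABn (i + 1) (i + 1) (by omega) (by omega)
    have q12 := hABn (i + 1) (i + 2) (by omega) (by omega)
    have q20 := hABn (i + 2) i (by omega) (by omega)
    have q21 := hABn (i + 2) (i + 1) (by omega) (by omega)
    have q22 := hABn (i + 2) (i + 2) (by omega) (by omega)
    refine win9 cha hp (x00 := B i) (x01 := A (i + 1)) (x02 := Gm)
      (x10 := A i) (x11 := G1) (x12 := B (i + 1)) (x20 := O) (x21 := B (i + 2))
      (x22 := A (i + 2)) ?_ (P1 (P2 (hGm i (by omega)))) (P1 (hG1 i (by omega)))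
      (P2 (P1 (hO (i + 2) (by omega)))) (P1 (P2 (hO i (by omega))))
      (P1 (hG1 (i + 1) (by omega))) (P2 (P1 (hGm (i + 1) (by omega)))) c b0 a1 cGm a0 cG1 b1 cO b2
    simp only [List.nodup_cons, List.mem_cons, List.not_mem_nil, or_false, not_or,
      List.nodup_nil, not_false_eq_true, and_true]
    grind
  have hB0 : cub c (a (B 0)) = 0 := w1 0 (by omega) cA0 cA1 cA2 cB1 cB2
  have main : ∀ i, i + 1 ≤ N → (cub c (a (A i)) = 0 ∧ cub c (a (A (i + 1))) = 0 ∧
      cub c (a (A (i + 2))) = 0) ∧ cub c (a (B i)) = 0 ∧ cub c (a (B (i + 1))) = 0 ∧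
      cub c (a (B (i + 2))) = 0 := by
    intro i
    induction i with
    | zero => exact fun _ => ⟨⟨cA0, cA1, cA2⟩, hB0, cB1, cB2⟩
    | succ i ih =>
      intro hi
      obtain ⟨⟨a0, a1, a2⟩, b0, b1, b2⟩ := ih (by omega)
      have b3 := w2 i (by omega) a0 a1 a2 b1 b2
      have a3 := w3 (i + 1) (by omega) a1 a2 b1 b2 b3
      exact ⟨⟨a1, a2, a3⟩, b1, b2, b3⟩
  refine ⟨c, hc0, cO, cGm, cG1, cG2, fun i hi => ?_⟩
  by_cases h : i + 1 ≤ N
  · exact ⟨(main i h).1.1, (main i h).2.1⟩
  · by_cases h' : i ≤ N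
    · have := main (i - 1) (by omega)
      rw [show i - 1 + 1 = i by omega] at this
      exact ⟨this.1.2.1, this.2.2.1⟩
    · have := main (i - 2) (by omega)
      rw [show i - 2 + 2 = i by omega] at this
      exact ⟨this.1.2.2, this.2.2.2⟩

end Pool.Agent.GTO.H18
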