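import Pool.Agent.GTO.StmtsC

/-! Squad GTO, row FAM: a family of large sets with small intersections. -/

namespace Pool.Agent.GTO.H18

open Finset Pool.Agent.GTO
open scoped Classical

section

variable {ι : Type} [Fintype ι]

omit [Fintype ι] in
theorem union_bound (M : ℕ) (S : Finset (Finset ι)) (hM : ∀ C ∈ S, M ≤ C.card)
    (h9 : ∀ C ∈ S, ∀ C' ∈ S, C ≠ C' → (C ∩ C').card ≤ 9) :
    S.card * M ≤ (S.biUnion id).card + 9 * S.card.choose 2 := by
  induction S using Finset.induction_on with
  | empty => simp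
  | insert C S hC ih =>
    have ih' := ih (fun D hD => hM D (mem_insert_of_mem hD))
      (fun D hD D' hD' => h9 D (mem_insert_of_mem hD) D' (mem_insert_of_mem hD'))
    rw [card_insert_of_notMem hC, biUnion_insert]
    have h1 := card_union_add_card_inter C (S.biUnion id)
    have h2 : (C ∩ S.biUnion id).card ≤ S.card * 9 := by
      rw [inter_biUnion]
      refine card_biUnion_le_card_mul _ _ _ fun D hD => ?_
      refine h9 C (mem_insert_self _ _) D (mem_insert_of_mem hD) ?_
      rintro rfl
      exact hC hD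
    have h3 : M ≤ C.card := hM C (mem_insert_self _ _)
    have h4 : (S.card + 1).choose 2 = S.card + S.card.choose 2 := by
      rw [Nat.choose_succ_succ' S.card 1, Nat.choose_one_right]
    rw [h4, add_mul, one_mul]
    change _ ≤ (C ∪ S.biUnion id).card + _
    omega

theorem double_bound (S : Finset (Finset ι))
    (h9 : ∀ C ∈ S, ∀ C' ∈ S, C ≠ C' → (C ∩ C').card ≤ 9) :
    (univ.filter fun p : ι => ∃ C ∈ S, ∃ C' ∈ S, C ≠ C' ∧ p ∈ C ∧ p ∈ C').card ≤
      9 * S.card.choose 2 := by
  induction S using Finset.induction_on with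
  | empty => simp
  | insert C S hC ih =>
    have ih' := ih (fun D hD D' hD' => h9 D (mem_insert_of_mem hD) D' (mem_insert_of_mem hD'))
    rw [card_insert_of_notMem hC]
    have h2 : (S.biUnion fun D => C ∩ D).card ≤ S.card * 9 := by
      refine card_biUnion_le_card_mul _ _ _ fun D hD => ?_
      refine h9 C (mem_insert_self _ _) D (mem_insert_of_mem hD) ?_
      rintro rfl
      exact hC hD
    have h4 : (S.card + 1).choose 2 = S.card + S.card.choose 2 := by
      rw [Nat.choose_succ_succ' S.card 1, Nat.choose_one_right]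
    rw [h4]
    have h5 : (univ.filter fun p : ι => ∃ D ∈ insert C S, ∃ D' ∈ insert C S,
        D ≠ D' ∧ p ∈ D ∧ p ∈ D') ⊆
        (univ.filter fun p : ι => ∃ D ∈ S, ∃ D' ∈ S, D ≠ D' ∧ p ∈ D ∧ p ∈ D') ∪
          S.biUnion fun D => C ∩ D := by
      intro p hp
      obtain ⟨-, D, hD, D', hD', hne, g1, g2⟩ := mem_filter.1 hp
      rcases mem_insert.1 hD with e1 | e1
      · rcases mem_insert.1 hD' with e2 | e2
        · exact absurd (e1.trans e2.symm) hne
        · exact mem_union_right _ (mem_biUnion.2 ⟨D', e2, mem_inter.2 ⟨e1 ▸ g1, g2⟩⟩)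
      · rcases mem_insert.1 hD' with e2 | e2
        · exact mem_union_right _ (mem_biUnion.2 ⟨D, e1, mem_inter.2 ⟨e2 ▸ g2, g1⟩⟩)
        · exact mem_union_left _ (mem_filter.2 ⟨mem_univ _, D, e1, D', e2, hne, g1, g2⟩)
    have h6 := (card_le_card h5).trans (card_union_le _ _)
    omega

end

theorem fam : FamStmt := by
  intro ι _ F M hn hM hF h9
  have h66 : F.card ≤ 66 := by
    by_contra hcon
    obtain ⟨S, hS, hc⟩ := exists_subset_card_eq (show 67 ≤ F.card by omega)
    have h1 := union_bound M S (fun C hC => hF C (hS hC))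
      (fun C hC C' hC' => h9 C (hS hC) C' (hS hC'))
    rw [hc] at h1
    have h2 : (S.biUnion id).card ≤ Fintype.card ι := card_le_univ _
    have h3 : Nat.choose 67 2 = 2211 := by decide
    rw [h3] at h1
    omega
  refine ⟨h66, ?_⟩
  have h1 := double_bound F h9
  have h2 : F.card.choose 2 ≤ Nat.choose 66 2 := Nat.choose_le_choose 2 h66
  have h3 : Nat.choose 66 2 = 2145 := by decide
  omega

end Pool.Agent.GTO.H18
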